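import Pool.Agent.R36.ItmFinite

/-!
# MP_d0d08e_co, Q1: excluding an induced topological minor

The finite graphs `H` such that clique-width is bounded on the class of
`H`-induced-topological-minor-free graphs are exactly the induced subgraphs of `P_4`, the paw and
the diamond.
-/

set_option autoImplicit false

namespace Pool.Agent.Results.MP_d0d08e_co.Classification

open Pool.Agent.R36.Itm
open Pool.Agent.H175R2 (cliqueWidth)

/-- Clique-width is bounded on the class of finite graphs that do not contain `H` as an induced
topological minor. -/
def BoundedOnITMFree {W : Type} (H : SimpleGraph W) : Prop :=
  ∃ c : ℕ, ∀ (V : Type) [Finite V] (G : SimpleGraph V), ¬ ITM H G → cliqueWidth G ≤ c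

/-- The complete classification: for a finite graph `H`, clique-width is bounded on the class of
`H`-induced-topological-minor-free graphs if and only if `H` is an induced subgraph of `P_4`, of the
paw or of the diamond. -/
theorem result : ∀ (W : Type) [Finite W] (H : SimpleGraph W),
    BoundedOnITMFree H ↔
      (H.IsIndContained P4 ∨ H.IsIndContained paw ∨ H.IsIndContained diamond) :=
  fun _ _ H => bdd_iff H

end Pool.Agent.Results.MP_d0d08e_co.Classification
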